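import Mathlib
import Pool.Agent.H.MP_2e4b78_lc.A

set_option autoImplicit false

namespace Pool.Agent.H.MP_f00d09_gt

open Set Function Cardinal Pool.Agent.H.MP_77d395_lc Pool.Agent.H.MP_6e75db_lc
  Pool.Agent.H.MP_2e4b78_lc

/-- the Menger property -/
def Menger (Y : Type) [TopologicalSpace Y] : Prop :=
  ∀ 𝒰 : ℕ → Set (Set Y), (∀ n, (∀ U ∈ 𝒰 n, IsOpen U) ∧ ⋃₀ 𝒰 n = Set.univ) →
    ∃ 𝒱 : ℕ → Set (Set Y), (∀ n, 𝒱 n ⊆ 𝒰 n ∧ (𝒱 n).Finite) ∧ ⋃₀ (⋃ n, 𝒱 n) = Set.univ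

/-- D-spaces -/
def DSp (X : Type) [TopologicalSpace X] : Prop :=
  ∀ U : X → Set X, (∀ x, IsOpen (U x) ∧ x ∈ U x) →
    ∃ D : Set X, IsClosed D ∧ DiscreteTopology D ∧ ⋃ x ∈ D, U x = Set.univ

theorem cm {Y : Type} [TopologicalSpace Y] [Countable Y] : Menger Y := fun 𝒰 h => by
  obtain ⟨e, he⟩ := exists_surjective_nat (Option Y)
  choose U u1 u2 using fun n y => (h n).2.ge (mem_univ y)
  refine ⟨fun n => U n '' {y | e n = some y}, fun n => ⟨image_subset_iff.2 fun y _ => u1 n y,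
    (Set.Subsingleton.finite fun a p b q => Option.some_injective _ (p.symm.trans q)).image _⟩,
    eq_univ_of_forall fun y => ?_⟩
  obtain ⟨n, p⟩ := he (some y)
  exact ⟨_, mem_iUnion.2 ⟨n, y, p, rfl⟩, u2 n y⟩

abbrev J := I × ℕ

abbrev W := Finset J × Finset J

def St (q : W) (c : J → Bool) : Prop := ∀ x ∈ q.1, (c x = true ↔ x ∈ q.2)

def Fr (𝒜 : Set W) (E : Set J) : Prop := ∀ K : Finset J, ∃ q ∈ 𝒜, ∀ a ∈ q.1, a ∉ E ∧ a ∉ K

open Classical in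
theorem gen {ι : Type} [Countable ι] (E : Set J) (𝒜 : ι → Set W) : ∃ c : J → Bool,
    (∀ x ∈ E, c x = true) ∧ ∀ i, Fr (𝒜 i) E → ∃ q ∈ 𝒜 i, St q c := by
  obtain ⟨e, he⟩ := exists_surjective_nat (Option ι)
  have : ∀ (i : Option ι) (K : Finset J), ∃ p : W, (∀ x ∈ p.1, x ∉ E ∧ x ∉ K) ∧
      ∀ a ∈ i, Fr (𝒜 a) E → p ∈ 𝒜 a := fun i K => by
    by_cases c : ∃ a ∈ i, Fr (𝒜 a) E
    · obtain ⟨a, ⟨⟩, k⟩ := c
      exact (k K).imp fun q c => ⟨c.2, fun _ e _ => by cases e; exact c.1⟩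
    exact ⟨(∅, ∅), by simp, fun a p q => (c ⟨a, p, q⟩).elim⟩
  choose p p1 p2 using this
  let K : ℕ → Finset J := Nat.rec ∅ fun m K => K ∪ (p (e m) K).1
  have m : Monotone K := monotone_nat_of_le_succ fun _ => Finset.subset_union_left
  refine ⟨fun x => decide (∀ m, x ∈ (p (e m) (K m)).1 → x ∈ (p (e m) (K m)).2),
    fun x q => decide_eq_true fun m c => ((p1 _ _ x c).1 q).elim, fun i q => ?_⟩
  obtain ⟨l, hl⟩ := he (some i)
  refine ⟨_, p2 (e l) (K l) i hl q, fun x c => decide_eq_true_iff.trans ⟨fun h => h l c, fun h k g => ?_⟩⟩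
  have f : ∀ a b, x ∈ (p (e a) (K a)).1 → x ∈ (p (e b) (K b)).1 → ¬ a < b :=
    fun a b u w l => (p1 _ _ _ w).2 (m l (Finset.mem_union_right _ u))
  rwa [le_antisymm (not_lt.1 (f _ _ c g)) (not_lt.1 (f _ _ g c))]

theorem mx (𝒜 : I → Set W) (hA : ∀ δ, ∀ q ∈ 𝒜 δ, ∀ a ∈ q.1, a.1 < δ) (C : I → Set J)
    (hC : ∀ δ, ∀ a ∈ C δ, a.1 < δ) : ∃ (m : J → J → Bool) (A : I → Prop),
    (∀ p x, p.1 ≤ x.1 → m p x = false) ∧
    (∀ p, ∀ δ < p.1, A δ → Fr (𝒜 δ) ∅ → ∃ q ∈ 𝒜 δ, St q (m p)) ∧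
    (∀ δ, A δ → ∃ Z ⊆ range m, Z.Finite ∧ ∀ K : Finset J, ∃ q ∈ 𝒜 δ, ∀ a ∈ q.1, a ∉ K ∧
      ∃ z ∈ Z, ∀ x ∈ K, m a x = z x) ∧
    (∀ s (Z : Set (J → Bool)), Z.Finite → (∀ z ∈ Z, (∀ x, s ≤ x.1 → z x = false) ∧
      ∀ δ < s, A δ → Fr (𝒜 δ) ∅ → ∃ q ∈ 𝒜 δ, St q z) → (∀ K : Finset J, ∃ q ∈ 𝒜 s, ∀ a ∈ q.1,
        a ∉ K ∧ ∃ z ∈ Z, ∀ x ∈ K, m a x = z x) → A s) ∧
    ∀ s, (∀ δ < s, A δ → Fr (𝒜 δ) (C s)) → ∃ p, ∀ x ∈ C s, m p x = true := by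
  classical
  let V := (ℕ → J → Bool) × Prop
  let R : ∀ s, (∀ b < s, V) → (J → Bool) → Prop := fun s g z => (∀ x, s ≤ x.1 → z x = false) ∧
    ∀ δ (h : δ < s), (g δ h).2 → Fr (𝒜 δ) ∅ → ∃ q ∈ 𝒜 δ, St q z
  let L : ∀ s, (∀ b < s, V) → Set (J → Bool) → Prop := fun s g Z => ∀ K : Finset J, ∃ q ∈ 𝒜 s,
    ∀ a ∈ q.1, a ∉ K ∧ ∃ z ∈ Z, ∀ x ∈ K, ∀ h, (g a.1 h).1 a.2 x = z x
  have : ∀ s g, ∃ y : V, (∀ i, R s g (y.1 i)) ∧ (y.2 → ∃ Z ⊆ range y.1, Z.Finite ∧ L s g Z) ∧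
      (∀ Z : Set (J → Bool), Z.Finite → (∀ z ∈ Z, R s g z) → L s g Z → y.2) ∧
      ((∀ δ (h : δ < s), (g δ h).2 → Fr (𝒜 δ) (C s)) → ∃ i, ∀ x ∈ C s, y.1 i x = true) :=
    fun s g => by
    have := ((cI s).mono Iio_subset_Iic_self).to_subtype
    obtain ⟨E, e1, e2, e3⟩ : ∃ E ⊆ C s, (∀ δ (h : δ < s), (g δ h).2 → Fr (𝒜 δ) ∅ → Fr (𝒜 δ) E) ∧
        ((∀ δ (h : δ < s), (g δ h).2 → Fr (𝒜 δ) (C s)) → C s ⊆ E) := by
      by_cases c : ∀ δ (h : δ < s), (g δ h).2 → Fr (𝒜 δ) (C s)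
      exacts [⟨_, Subset.rfl, fun δ h a _ => c δ h a, fun _ => Subset.rfl⟩,
        ⟨∅, empty_subset _, fun _ _ _ => id, fun d => (c d).elim⟩]
    obtain ⟨c, c1, c2⟩ := gen E fun δ : Iio s => 𝒜 δ
    obtain ⟨Z, z1, z2, z3⟩ : ∃ Z : Set (J → Bool), Z.Finite ∧ (∀ z ∈ Z, R s g z) ∧
        ((∃ Z : Set (J → Bool), Z.Finite ∧ (∀ z ∈ Z, R s g z) ∧ L s g Z) → L s g Z) := by
      by_cases c : ∃ Z : Set (J → Bool), Z.Finite ∧ (∀ z ∈ Z, R s g z) ∧ L s g Z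
      exacts [c.imp fun _ c => ⟨c.1, c.2.1, fun _ => c.2.2⟩, ⟨∅, finite_empty, by simp, fun d => (c d).elim⟩]
    obtain ⟨y, hy⟩ := (z1.insert fun x : J => if x.1 < s then c x else false).countable.exists_eq_range
      (insert_nonempty _ _)
    refine ⟨(y, L s g Z), fun i => ?_, fun l => ⟨Z, hy ▸ subset_insert _ _, z1, l⟩,
      fun Y a b d => z3 ⟨Y, a, b, d⟩, fun d => ?_⟩
    · rcases hy.ge ⟨i, rfl⟩ with e | e
      · rw [show (y, L s g Z).1 i = _ from e]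
        exact ⟨fun x l => if_neg l.not_gt, fun δ h a b => (c2 ⟨δ, h⟩ (e2 δ h a b)).imp fun q d =>
          ⟨d.1, fun x p => by beta_reduce; rw [if_pos ((hA _ q d.1 x p).trans h)]; exact d.2 x p⟩⟩
      exact z2 _ e
    obtain ⟨i, e⟩ := hy.le (.inl rfl)
    exact ⟨i, fun x p => (congrFun e x).trans ((if_pos (hC s x p)).trans (c1 x (e3 d p)))⟩
  choose y hy using this
  let f : I → V := wellFounded_lt.fix y
  replace hy := fun s => (show f s = y s fun b _ => f b from wellFounded_lt.fix_eq _ s) ▸ hy s fun b _ => f b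
  refine ⟨fun p => (f p.1).1 p.2, fun s => (f s).2, fun p => ((hy p.1).1 p.2).1,
    fun p => ((hy p.1).1 p.2).2, fun δ a => ((hy δ).2.1 a).imp fun Z z => ⟨z.1.trans ?_, z.2.1,
      fun K => (z.2.2 K).imp fun q c => ⟨c.1, fun a p => (c.2 a p).imp_right fun d => d.imp fun z d =>
        ⟨d.1, fun x r => d.2 x r (hA _ q c.1 a p)⟩⟩⟩, fun s Z a b c => (hy s).2.2.1 Z a b fun K =>
    (c K).imp fun q c => ⟨c.1, fun a p => (c.2 a p).imp_right fun d => d.imp fun z d =>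
      ⟨d.1, fun x r _ => d.2 x r⟩⟩, fun s c => let ⟨i, p⟩ := (hy s).2.2.2 c; ⟨(s, i), p⟩⟩
  rintro _ ⟨i, rfl⟩
  exact ⟨(δ, i), rfl⟩

theorem cf (γ : I) : {K : Finset J | ∀ x ∈ K, x.1 ≤ γ}.Countable :=
  ((countable_ofPred_finite_subset ((cI γ).prod countable_univ)).preimage
    Finset.coe_injective).mono fun σ p => And.intro σ.finite_toSet fun q r => ⟨p q r, trivial⟩

open Classical in
theorem fb {δ : I} (h : o < δ) (K : Finset J) : ∃ γ < δ, ∀ x ∈ K.filter (·.1 < δ), x.1 ≤ γ := by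
  obtain ⟨γ, g1, g2⟩ := (insert o ((K.filter (·.1 < δ)).image Prod.fst)).exists_max_image id (by simp)
  exact ⟨γ, (Finset.mem_insert.1 g1).elim (· ▸ h) fun q => let ⟨_, p, e⟩ := Finset.mem_image.1 q
    e ▸ (Finset.mem_filter.1 p).2, fun y q => g2 _ (Finset.mem_insert_of_mem
      (Finset.mem_image_of_mem _ q))⟩

open Classical in
theorem m2 (hd : Dia) : ∃ m : J → J → Bool, (∀ p x, p.1 ≤ x.1 → m p x = false) ∧
    (∀ 𝒮 : Set W, ∃ R ⊆ 𝒮, R.Countable ∧ ∃ δ, ∀ q ∈ 𝒮, (∀ a ∈ q.1, δ < a.1) → ∀ p : J, δ < p.1 →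
      ∃ q ∈ R, St q (m p)) ∧
    ∀ E : Set J, E.Countable → (∀ z ∈ range m, ∃ K : Finset J, ∀ a ∈ E, (∀ x ∈ K, m a x = z x) →
      a ∈ K) → ∃ p, ∀ x ∈ E, m p x = true := by
  obtain ⟨D, hD⟩ := hd
  obtain ⟨π⟩ := (le_def W I).1 (by simp)
  have cl := fun (S : I → Set I) (c : ∀ γ, (S γ).Countable) => cc (fun f => (bd (countable_range
    f)).imp fun b h n => h _ ⟨n, rfl⟩) S (fun a => (bd ((cI a).biUnion fun γ _ => c γ)).imp
      fun b h γ l x p => h x (mem_biUnion l p)) o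
  obtain ⟨m, A, m1, m2, m3, m4, m5⟩ := mx (fun δ => {q | π q ∈ D δ ∧ ∀ a ∈ q.1, a.1 < δ})
    (fun _ _ p => p.2) (fun δ => {a | π ({a}, ∅) ∈ D δ ∧ a.1 < δ}) fun _ _ p => p.2
  refine ⟨m, m1, fun 𝒮 => ?_, fun E c h => ?_⟩
  · have : ∀ (K : Finset J) (T : Finset (Finset J)), ∃ w : W, ∀ q ∈ 𝒮, (∀ a ∈ q.1, a ∉ K ∧
        K.filter (m a · = true) ∈ T) → w ∈ 𝒮 ∧ ∀ a ∈ w.1, a ∉ K ∧ K.filter (m a · = true) ∈ T :=
      fun K T => by
      by_cases c : ∃ q ∈ 𝒮, ∀ a ∈ q.1, a ∉ K ∧ K.filter (m a · = true) ∈ T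
      exacts [c.imp fun _ c _ _ _ => c, ⟨(∅, ∅), fun q a b => (c ⟨q, a, b⟩).elim⟩]
    choose w hw using this
    obtain ⟨δ, d1, d2, d3⟩ := hD (π '' 𝒮) (cl (fun γ => ⋃ K ∈ {K : Finset J | ∀ x ∈ K, x.1 ≤ γ},
      ⋃ T ∈ K.powerset.powerset, insert (π (w K T)) (Prod.fst '' ((w K T).1 : Set J))) fun γ => (cf γ).biUnion
        fun K _ => (Finset.countable_toSet _).biUnion fun T _ =>
          ((Finset.countable_toSet _).image _).insert _)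
    have e : ∀ q, π q ∈ D δ ↔ q ∈ 𝒮 ∧ π q < δ := fun q => by
      rw [← show _ = D δ from d1, mem_inter_iff, π.injective.mem_set_image]; rfl
    refine ⟨{q | π q ∈ D δ}, fun q p => ((e q).1 p).1, ((cI δ).preimage π.injective).mono
      fun q p => mem_preimage.2 (mem_Iic.2 ((e q).1 p).2.le), δ, fun q p l => ?_⟩
    have k : ∀ K : Finset J, ∃ r ∈ {q : W | π q ∈ D δ ∧ ∀ a ∈ q.1, a.1 < δ}, ∀ a ∈ r.1, a ∉ K ∧ ∃ z ∈
        (fun b x => if x.1 < δ then m b x else false) '' q.1, ∀ x ∈ K, m a x = z x := fun K => by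
      obtain ⟨γ, g1, g2⟩ := fb d2 K
      obtain ⟨w1, w2⟩ := hw (K.filter (·.1 < δ)) (q.1.image fun a => (K.filter fun x : J => x.1 < δ).filter
        (m a · = true)) q p fun a r => ⟨fun c => (l a r).not_gt (Finset.mem_filter.1 c).2,
          Finset.mem_image_of_mem _ r⟩
      have := fun x p => d3 γ g1 x (mem_biUnion g2 (mem_biUnion (Finset.mem_powerset.2
        (Finset.image_subset_iff.2 fun a (_ : a ∈ q.1) => Finset.mem_powerset.2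
          (Finset.filter_subset (m a · = true) _))) p))
      have u := fun a r => this _ (.inr ⟨a, r, rfl⟩)
      refine ⟨_, ⟨(e _).2 ⟨w1, this _ (.inl rfl)⟩, u⟩, fun a r => ⟨fun c => (w2 a r).1
        (Finset.mem_filter.2 ⟨c, u a r⟩), ?_⟩⟩
      obtain ⟨b, b1, b2⟩ := Finset.mem_image.1 (w2 a r).2
      refine ⟨_, ⟨b, b1, rfl⟩, fun x t => ?_⟩
      beta_reduce
      split_ifs with c
      · simpa [t, c] using (Finset.ext_iff.1 b2 x).symm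
      exact m1 _ _ ((u a r).le.trans (not_lt.1 c))
    exact fun s t => (m2 s δ t (m4 δ _ (q.1.finite_toSet.image _) (forall_mem_image.2 fun b r =>
      ⟨fun x c => if_neg c.not_gt, fun γ g1 g2 g3 => (m2 b γ (g1.trans (l b r)) g2 g3).imp fun u c =>
        ⟨c.1, fun x t => by beta_reduce; rw [if_pos ((c.1.2 x t).trans g1)]; exact c.2 x t⟩⟩) k) fun K =>
          (k K).imp fun _ c => ⟨c.1, fun a r => ⟨id, (c.2 a r).1⟩⟩).imp fun _ c => ⟨c.1.1, c.2⟩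
  obtain ⟨δ, d1, d2, d3⟩ := hD ((fun a => π ({a}, ∅)) '' E) (cl (fun _ => (fun a => π ({a}, ∅)) '' E ∪
    Prod.fst '' E) fun _ => (c.image _).union (c.image _))
  have e : {a | π ({a}, ∅) ∈ D δ ∧ a.1 < δ} = E := by
    rw [← show _ = D δ from d1]
    exact Subset.antisymm (fun a ⟨⟨⟨b, p, e⟩, _⟩, _⟩ => Finset.singleton_injective (congrArg Prod.fst
      (π.injective e)) ▸ p) fun a p => ⟨⟨⟨a, p, rfl⟩, d3 o d2 _ (.inl ⟨a, p, rfl⟩)⟩,
        d3 o d2 _ (.inr ⟨a, p, rfl⟩)⟩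
  refine e ▸ m5 δ fun γ _ a K => ?_
  obtain ⟨Z, z1, z2, z3⟩ := m3 γ a
  choose! L hL using h
  obtain ⟨q, q1, q2⟩ := z3 (K ∪ z2.toFinset.biUnion L)
  refine ⟨q, q1, fun a p => ⟨fun c => ?_, fun c => (q2 a p).1 (Finset.mem_union_left _ c)⟩⟩
  obtain ⟨n, z, r, t⟩ := q2 a p
  have := fun x u => Finset.mem_union_right K (Finset.mem_biUnion.2 ⟨z, z2.mem_toFinset.2 r, u⟩ :
    x ∈ z2.toFinset.biUnion L)
  exact n (this _ (hL z (z1 r) a (e ▸ c) fun x u => t x (this x u)))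

theorem bn {X : Set (J → Bool)} {U : Set X} (h : IsOpen U) {x : X} (p : x ∈ U) :
    ∃ K : Finset J, ∀ z : X, (∀ y ∈ K, z.1 y = x.1 y) → z ∈ U := by
  obtain ⟨W, w, rfl⟩ := isOpen_induced_iff.1 h
  obtain ⟨K, u, h1, h2⟩ := isOpen_pi_iff.1 w x.1 p
  exact ⟨K, fun z e => h2 fun y t => e y t ▸ (h1 y t).2⟩

open Classical in
theorem main (hd : Dia) : ∃ X : Set (J → Bool), HereditarilyLindelofSpace X ∧
    (∀ A : Set X, A.Countable → (closure A).Countable) ∧ ¬ DSp X := by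
  obtain ⟨m, m1, m2, m3⟩ := m2 hd
  choose r hr using fun x : range m => x.2
  have ri : Injective r := fun a b e => Subtype.ext (hr a ▸ hr b ▸ congrArg m e)
  have cr : ∀ δ, {x | (r x).1 ≤ δ}.Countable := fun δ => (((cI δ).prod countable_univ).preimage
    ri).mono fun _ p => And.intro p trivial
  have hl : HereditarilyLindelofSpace (range m) := ⟨fun Y _ => isLindelof_of_countable_subcover
    fun {ι} U u c => by
    choose i hi using fun y : Y => mem_iUnion.1 (c y.2)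
    choose F hF using fun y => bn (u (i y)) (hi y)
    let φ : Finset J → Y → W := fun R y => (F y \ R, (F y).filter (y.1.1 · = true))
    choose R r1 r2 d r3 using fun R H : Finset J => m2 (φ R '' {y | R.filter (y.1.1 · = true) = H})
    rcases isEmpty_or_nonempty Y with h | h
    · exact ⟨∅, countable_empty, fun y p => h.elim ⟨y, p⟩⟩
    choose! v v1 v2 using fun K H q (p : q ∈ R K H) => r1 K H p
    have cb := fun γ => (cf γ).biUnion fun K _ => K.powerset.countable_toSet.image (d K)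
    choose G hG using fun γ => bd (cb γ)
    obtain ⟨δ, d1, d2⟩ := clo G
    refine ⟨i '' (Subtype.val ⁻¹' {x | (r x).1 ≤ δ} ∪ ⋃ K ∈ {K : Finset J | ∀ x ∈ K, x.1 ≤ δ},
      ⋃ H ∈ K.powerset, v K H '' R K H), (((cr δ).preimage Subtype.val_injective).union ((cf δ).biUnion
        fun K _ => K.powerset.countable_toSet.biUnion fun H _ => (r2 K H).image _)).image _,
      fun y p => ?_⟩
    rcases le_or_gt (r y).1 δ with l | l
    · exact mem_biUnion ⟨⟨y, p⟩, .inl l, rfl⟩ (hi ⟨y, p⟩)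
    obtain ⟨γ, g1, g2⟩ := fb d1 (F ⟨y, p⟩)
    have s := Finset.mem_powerset.2 (Finset.filter_subset (y.1 · = true) ((F ⟨y, p⟩).filter (·.1 < δ)))
    have b := (hG γ _ (mem_biUnion g2 ⟨_, s, rfl⟩)).trans (d2 γ g1)
    obtain ⟨q, q1, q2⟩ := r3 _ _ _ ⟨⟨y, p⟩, rfl, rfl⟩ (fun a t => b.trans_le (not_lt.1 fun c =>
      (Finset.mem_sdiff.1 t).2 (Finset.mem_filter.2 ⟨(Finset.mem_sdiff.1 t).1, c⟩))) _ (b.trans l)
    refine mem_biUnion ⟨_, .inr (mem_biUnion (fun x t => (g2 x t).trans g1.le) (mem_biUnion s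
      ⟨q, q1, rfl⟩)), rfl⟩ (hF _ y fun x t => ?_)
    by_cases c : x ∈ (F ⟨y, p⟩).filter (·.1 < δ)
    · simpa [c] using (Finset.ext_iff.1 (v1 _ _ _ q1) x).symm
    have := (v2 _ _ _ q1 ▸ q2) x (Finset.mem_sdiff.2 ⟨t, c⟩)
    rw [hr] at this
    exact Bool.eq_iff_iff.2 (this.trans (Finset.mem_filter.trans (and_iff_right t)))⟩
  refine ⟨range m, hl, fun A a => ?_, fun h => ?_⟩
  · obtain ⟨γ, g⟩ := bd (a.image fun x => (r x).1)
    obtain ⟨R, r1, r2, δ, r3⟩ := m2 ((fun a => ({a}, {a})) '' {a | γ ≤ a.1})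
    obtain ⟨β, b⟩ := bd ((countable_singleton γ).insert δ)
    refine (cr δ).mono fun x p => show (r x).1 ≤ δ from not_lt.1 fun l => ?_
    obtain ⟨q, q1, q2⟩ := r3 _ ⟨(β, 0), (b γ (by simp)).le, rfl⟩ (by simpa using b δ (.inl rfl)) _ l
    obtain ⟨y, y1, rfl⟩ := r1 q1
    have := closure_minimal (fun z t => show z ∈ {z : range m | z.1 y = false} from
      (congrFun (hr z) y).symm.trans (m1 _ _ ((g _ ⟨z, t, rfl⟩).le.trans y1))) (isClosed_eq ((continuous_apply y).comp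
        continuous_subtype_val) continuous_const) p
    simpa [hr, show x.1 y = false from this] using q2 y
  obtain ⟨D, d1, d2, d3⟩ := h (fun x => {z | z.1 (r x) = false}) fun x =>
    ⟨((continuous_apply (A := fun _ : J => Bool) (r x)).comp continuous_subtype_val).isOpen_preimage
      {false} (isOpen_discrete _), (congrFun (hr x) _).symm.trans (m1 _ _ le_rfl)⟩
  obtain ⟨p, hp⟩ := m3 (r '' D) ((d1.isLindelof.countable d2).image r) fun z t => by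
    obtain ⟨V, v1, v2, v3⟩ : ∃ V, IsOpen V ∧ ⟨z, t⟩ ∈ V ∧ D ∩ V ⊆ {⟨z, t⟩} := by
      by_cases h : ⟨z, t⟩ ∈ D
      · obtain ⟨V, v1, v2⟩ := isOpen_induced_iff.1 (isOpen_discrete ({⟨_, h⟩} : Set D))
        exact ⟨V, v1, v2.ge rfl, fun x c => congrArg Subtype.val (v2.le (show (⟨x, c.1⟩ : D) ∈ _ from c.2))⟩
      exact ⟨Dᶜ, d1.isOpen_compl, h, by simp⟩
    obtain ⟨K, k⟩ := bn v1 v2
    refine ⟨insert (r ⟨z, t⟩) K, forall_mem_image.2 fun x a e => ?_⟩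
    exact v3 ⟨a, k x fun y c => hr x ▸ e y (by simp [c])⟩ ▸ Finset.mem_insert_self _ _
  obtain ⟨x, a, w⟩ := mem_iUnion₂.1 (d3.ge (mem_univ ⟨m p, p, rfl⟩))
  exact absurd ((hp _ ⟨x, a, rfl⟩).symm.trans w) (by simp)

end Pool.Agent.H.MP_f00d09_gt
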